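import Pool.Agent.Lib.MP_c37a72_al.NI.SpecN
import Pool.Agent.Lib.MP_c37a72_al.PUR

/-!
# MP_c37a72_al, block PU (labels, part 2, section 3): purity

Text: `/team-store/MP_c37a72_labels.md`, section 3, in commutative-algebra form (idempotents of finite
commutative algebras with prescribed values at the points; no Galois groups). Module `XXX` is the file
`Pool/Agent/Lib/MP_c37a72_al/PU/XXX.lean`, which imports `Pool.Agent.Lib.MP_c37a72_al.PU.Spec`, with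
`theorem specXXX (hYYY : SpecYYY) .. : SpecXXX`; every Spec of this file, of `LB/Spec.lean` (all proved in
`LB/All.lean`), `EG/Spec.lean`, `NI/Spec*.lean` may be taken as a hypothesis; own lemmas in the namespace
`Pool.Agent.Lib.MP_c37a72_al.PU.XXXM`.

Notation as in `LB/Base.lean`, `LB/Spec.lean`. `sc r` is the scalar matrix `r · 1` in `M_n(R2)`;
`c : K → M_n(R2)` is `sc` on `K`, `t : Z → M_n(R2)`, `t(z) = τ(D z) = D(T z)`.
-/

set_option autoImplicit false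

open scoped TensorProduct
open Coalgebra HopfAlgebra Module
open Pool.Agent.Lib.MP_c37a72_al.LB

namespace Pool.Agent.Lib.MP_c37a72_al.PU

universe u v w

section Defs

variable {k : Type u} {Z F : Type v} [Field k] [Field Z] [Algebra k Z] [Field F] [Algebra k F]
  [Algebra Z F]

/-- `v = wt ∘ b` on `Z`, for some lift `wt : F → Ω` of `w`. -/
def Via {Ω : Type v} [Field Ω] [Algebra k Ω] (b : F ≃ₐ[k] F) (v w : Z →ₐ[k] Ω) : Prop :=
  ∃ wt : F →ₐ[k] Ω, (∀ a, wt (algebraMap Z F a) = w a) ∧ ∀ a, v a = wt (b (algebraMap Z F a))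

/-- `lam` is a homomorphism `G → ℤ` which vanishes on `Gal(F/Z)`. -/
structure IsLam (Z : Type v) [Field Z] [Algebra k Z] [Algebra Z F] (G : Subgroup (F ≃ₐ[k] F))
    (lam : (F ≃ₐ[k] F) → ℤ) : Prop where
  mul : ∀ a ∈ G, ∀ b ∈ G, lam (a * b) = lam a + lam b
  gz : ∀ σ ∈ gZ k Z F, lam σ = 0

/-- the pair `(v, w)` has a label in `L` of height `M`. -/
def HasLab (L : Set (F ≃ₐ[k] F)) (lam : (F ≃ₐ[k] F) → ℤ) (M : ℤ) {Ω : Type v} [Field Ω]
    [Algebra k Ω] (v w : Z →ₐ[k] Ω) : Prop :=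
  ∃ b ∈ L, lam b = M ∧ Via b v w

variable {Q F2 R2 : Type v} [DivisionRing Q] [Algebra k Q] [Algebra Z Q] [IsScalarTower k Z Q]
  [Field F2] [Algebra k F2] [Ring R2] [Algebra k R2] [Algebra F2 R2] [IsScalarTower k F2 R2]

/-- `w` is a point of `*kap` of maximal height. -/
def IsTop (G : Subgroup (F ≃ₐ[k] F)) (lam : (F ≃ₐ[k] F) → ℤ) (D : Q →ₐ[k] R2)
    (K : Subalgebra F2 R2) {Ω : Type v} [Field Ω] [Algebra k Ω] (kap : K →ₐ[k] Ω)
    (w : Z →ₐ[k] Ω) : Prop :=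
  Star D K kap w ∧ ∀ w' : Z →ₐ[k] Ω, Star D K kap w' → ∀ b ∈ G, Via b w' w → lam b ≤ 0

/-- `v` is related to a top point of `*kap` by a label of height `M`. -/
def IsUp (L : Set (F ≃ₐ[k] F)) (G : Subgroup (F ≃ₐ[k] F)) (lam : (F ≃ₐ[k] F) → ℤ) (M : ℤ)
    (D : Q →ₐ[k] R2) (K : Subalgebra F2 R2) {Ω : Type v} [Field Ω] [Algebra k Ω] (kap : K →ₐ[k] Ω)
    (v : Z →ₐ[k] Ω) : Prop :=
  ∃ w : Z →ₐ[k] Ω, IsTop G lam D K kap w ∧ HasLab L lam M v w

/-- The input from (1.4) - (2.1) of the text: `top(kap') - top(kap) ≤ lam(a)`. -/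
def H21 (F : Type v) [Field F] [Algebra k F] [Algebra Z F] [IsScalarTower k Z F]
    (jF : Z ⊗[k] Z →ₐ[k] F2) (D : Q →ₐ[k] R2) (K : Subalgebra F2 R2) (W : Submodule k R2)
    (lam : (F ≃ₐ[k] F) → ℤ) : Prop :=
  ∀ (Ω : Type v) [Field Ω] [IsAlgClosed Ω] [Algebra k Ω] (x y z : Z →ₐ[k] Ω) (ξ ξ' : F2 →ₐ[k] Ω),
    Pr jF ξ x y → Pr jF ξ' z y → ∀ kap kap' : K →ₐ[k] Ω,
    (∀ a, kap (algebraMap F2 K a) = ξ a) → (∀ a, kap' (algebraMap F2 K a) = ξ' a) →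
    ∀ a ∈ Lab F Z D W, Via a z x → ∀ w : Z →ₐ[k] Ω, IsTop (G0 F Z D W) lam D K kap w →
    ∀ v : Z →ₐ[k] Ω, ∀ b ∈ Lab F Z D W, Via b v w → Star D K kap' v → lam b ≤ lam a

/-- scalar matrices. -/
noncomputable def sc (k : Type u) [Field k] (n : ℕ) (R : Type v) [Ring R] [Algebra k R] :
    R →ₐ[k] Matrix (Fin n) (Fin n) R :=
  Matrix.scalarAlgHom (Fin n) k

theorem sc_apply (n : ℕ) (R : Type v) [Ring R] [Algebra k R] (r : R) :
    sc k n R r = Matrix.scalar (Fin n) r := rfl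

/-- `q ↦ D(T(q))`. -/
noncomputable def DT {n : ℕ} (D : Q →ₐ[k] R2) (T : Q →ₐ[k] Matrix (Fin n) (Fin n) Q) :
    Q →ₐ[k] Matrix (Fin n) (Fin n) R2 :=
  D.mapMatrix.comp T

@[simp] theorem DT_apply {n : ℕ} (D : Q →ₐ[k] R2) (T : Q →ₐ[k] Matrix (Fin n) (Fin n) Q) (q : Q)
    (p l : Fin n) : DT D T q p l = D (T q p l) := rfl

end Defs

/-! ## Commutative algebra -/

/-- **NZP** (60 lines). A non-nilpotent element of a commutative algebra has a nonzero value at a point.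

PROOF. There is a prime `𝔪` of `P` with `y ∉ 𝔪` (`nilradical_eq_sInf`, `mem_nilradical`); `P / 𝔪` is a domain,
`Ω := AlgebraicClosure (FractionRing (P / 𝔪))` with its structure of a `k`-algebra. -/
def SpecNZP : Prop :=
  ∀ (k : Type u) (P : Type v) [Field k] [CommRing P] [Algebra k P] (y : P), ¬ IsNilpotent y →
    ∃ (Ω : Type v) (_ : Field Ω) (_ : IsAlgClosed Ω) (_ : Algebra k Ω) (ψ : P →ₐ[k] Ω), ψ y ≠ 0

/-- **IDM** (200 lines). Idempotents of a finite commutative algebra with prescribed values at the points: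
`S` is a property of the points which is invariant under extension of the algebraically closed field.

PROOF. `P` is Artinian (finite over the field `F`). For a prime (= maximal) ideal `𝔪` of `P` let
`Ω_𝔪 := AlgebraicClosure (P / 𝔪)` (or of the fraction field) and `ψ_𝔪 : P → Ω_𝔪` the canonical point, and
`𝒮 := {𝔪 | S Ω_𝔪 ψ_𝔪}`. There is an idempotent `e` of `P` with `1 - e ∈ 𝔪` for `𝔪 ∈ 𝒮` and `e ∈ 𝔪` for the
other maximal ideals (finitely many maximal ideals, Chinese remainder theorem for `P / nilradical`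
(`IsArtinianRing.equivPi`), lifting of idempotents modulo a nil ideal; or
`PrimeSpectrum` is discrete and `PrimeSpectrum.exists_idempotent_basicOpen_eq_of_isClopen`). A point
`ψ : P → Ω` with kernel `𝔪` factors as `φ ∘ ψ_𝔪`, `φ : Ω_𝔪 → Ω` (`IsAlgClosed.lift` along the injection
`P / 𝔪 → Ω`), so `S Ω ψ ↔ S Ω_𝔪 ψ_𝔪 ↔ 𝔪 ∈ 𝒮` and `ψ e = 1` or `0`. -/
def SpecIDM : Prop :=
  ∀ (k : Type u) (F P : Type v) [Field k] [CommRing P] [Algebra k P] [Field F] [Algebra F P]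
    [Module.Finite F P] (S : ∀ (Ω : Type v) [Field Ω] [Algebra k Ω], (P →ₐ[k] Ω) → Prop),
    (∀ (Ω₁ Ω : Type v) [Field Ω₁] [IsAlgClosed Ω₁] [Algebra k Ω₁] [Field Ω] [IsAlgClosed Ω]
      [Algebra k Ω] (φ : Ω₁ →ₐ[k] Ω) (ψ : P →ₐ[k] Ω₁), S Ω₁ ψ ↔ S Ω (φ.comp ψ)) →
    ∃ e : P, e * e = e ∧ ∀ (Ω : Type v) [Field Ω] [IsAlgClosed Ω] [Algebra k Ω] (ψ : P →ₐ[k] Ω),
      (S Ω ψ → ψ e = 1) ∧ (¬ S Ω ψ → ψ e = 0)

/-- **IDR** (200 lines). The same for the commutative algebra generated by the images of `p : A → R` and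
`q : B → R`, in the language of `Kill`.

PROOF. `P := ` the range of the homomorphism `A ⊗ B → R`, `a ⊗ b ↦ p a * q b`
(`Algebra.TensorProduct.lift`; it is `mu k p q` as a linear map). `P` is commutative, contains the image of
`F`, and is finite over `F` (an `F`-subspace of `R`). A point `ψ : P → Ω` gives `f = ψ ∘ p`, `g = ψ ∘ q` with
`Kill k p q f g` (`ψ(mu k p q t) = mu k f g t`), and every pair with `Kill` is of this form. `S' Ω ψ := S Ω f g`;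
IDM gives `e ∈ P`, `e = mu k p q t`. -/
def SpecIDR : Prop :=
  ∀ (k : Type u) (F R A B : Type v) [Field k] [Field F] [Algebra k F] [Ring R] [Algebra k R]
    [Algebra F R] [IsScalarTower k F R] [Module.Finite F R] [Ring A] [Algebra k A] [Ring B]
    [Algebra k B] (p : A →ₐ[k] R) (q : B →ₐ[k] R),
    (∀ a a', p a * p a' = p a' * p a) → (∀ b b', q b * q b' = q b' * q b) →
    (∀ a b, p a * q b = q b * p a) → (∀ x : F, ∃ t : A ⊗[k] B, mu k p q t = algebraMap F R x) →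
    ∀ S : ∀ (Ω : Type v) [Field Ω] [Algebra k Ω], (A →ₐ[k] Ω) → (B →ₐ[k] Ω) → Prop,
    (∀ (Ω₁ Ω : Type v) [Field Ω₁] [IsAlgClosed Ω₁] [Algebra k Ω₁] [Field Ω] [IsAlgClosed Ω]
      [Algebra k Ω] (φ : Ω₁ →ₐ[k] Ω) (f : A →ₐ[k] Ω₁) (g : B →ₐ[k] Ω₁), Kill k p q f g →
      (S Ω₁ f g ↔ S Ω (φ.comp f) (φ.comp g))) →
    ∃ t : A ⊗[k] B, mu k p q t * mu k p q t = mu k p q t ∧
      ∀ (Ω : Type v) [Field Ω] [IsAlgClosed Ω] [Algebra k Ω] (f : A →ₐ[k] Ω) (g : B →ₐ[k] Ω),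
        Kill k p q f g → (S Ω f g → mu k f g t = 1) ∧ (¬ S Ω f g → mu k f g t = 0)

/-- **TRI** (150 lines). Two idempotents in the commutative algebra generated by the images of three maps:
if `ε = 1` at every point where `μ = 1` then `ε μ = μ`. (`E`, `M` are the tensors of `ε`, `μ`; a point is a
triple `(f₁, f₂, f₃)` of homomorphisms.)

PROOF. `P := Algebra.adjoin k (range p₁ ∪ range p₂ ∪ range p₃)` is commutative. `y := (1 - ε) μ ∈ P` is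
idempotent (`ε`, `μ` commute). If `y ≠ 0` then `y` is not nilpotent and NZP gives `ψ : P → Ω` with `ψ y ≠ 0`;
`f_i := ψ ∘ p_i`. `ψ(mu k p_i p_l s) = mu k f_i f_l s`, so the three `Kill` hold; `ψ μ ≠ 0`, so `ψ ε = 1` by
hypothesis, `ψ y = 0`, a contradiction. Here `ε`, `μ` are only assumed to be elements of `P` with known
values at the points: `ve`, `vm`. -/
def SpecTRI : Prop :=
  ∀ (k : Type u) (R A B C : Type v) [Field k] [Ring R] [Algebra k R] [Ring A] [Algebra k A] [Ring B]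
    [Algebra k B] [Ring C] [Algebra k C] (p : A →ₐ[k] R) (q : B →ₐ[k] R) (r : C →ₐ[k] R),
    (∀ a a', p a * p a' = p a' * p a) → (∀ b b', q b * q b' = q b' * q b) →
    (∀ c c', r c * r c' = r c' * r c) → (∀ a b, p a * q b = q b * p a) →
    (∀ a c, p a * r c = r c * p a) → (∀ b c, q b * r c = r c * q b) →
    (∀ (tpq : A ⊗[k] B) (tpr : A ⊗[k] C) (tqr : B ⊗[k] C),
      -- (1) `ε` in terms of `(p, r)`, `μ = μ₁ μ₂` in terms of `(p, q)` and `(q, r)`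
      mu k p r tpr * mu k p r tpr = mu k p r tpr → mu k p q tpq * mu k p q tpq = mu k p q tpq →
      mu k q r tqr * mu k q r tqr = mu k q r tqr →
      (∀ (Ω : Type v) [Field Ω] [IsAlgClosed Ω] [Algebra k Ω] (f : A →ₐ[k] Ω) (g : B →ₐ[k] Ω)
        (h : C →ₐ[k] Ω), Kill k p q f g → Kill k p r f h → Kill k q r g h →
        mu k f g tpq ≠ 0 → mu k g h tqr ≠ 0 → mu k f h tpr = 1) →
      mu k p r tpr * (mu k q r tqr * mu k p q tpq) = mu k q r tqr * mu k p q tpq) ∧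
    (∀ (tpq : A ⊗[k] B) (tpr : A ⊗[k] C),
      -- (2) `ε` in terms of `(p, q)`, `μ` in terms of `(p, r)`
      mu k p r tpr * mu k p r tpr = mu k p r tpr → mu k p q tpq * mu k p q tpq = mu k p q tpq →
      (∀ (Ω : Type v) [Field Ω] [IsAlgClosed Ω] [Algebra k Ω] (f : A →ₐ[k] Ω) (g : B →ₐ[k] Ω)
        (h : C →ₐ[k] Ω), Kill k p q f g → Kill k p r f h → Kill k q r g h →
        mu k f h tpr ≠ 0 → mu k f g tpq = 1) →
      mu k p q tpq * mu k p r tpr = mu k p r tpr)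

/-! ## Lifts, labels and heights -/

/-- **ALF** (200 lines). Descent of points to a smaller algebraically closed field; uniqueness of lifts.

PROOF. (1) Every `xt a` is a root of a nonzero polynomial with coefficients in `φ(x₁(Z)) ⊆ φ(Ω₁)`, which is
algebraically closed in `Ω` (`Ω₁` is algebraically closed: the polynomial splits over `Ω₁`), so
`xt a ∈ φ(Ω₁)`; `φ` is injective. (2) `D z ∈ R2` is a root of a monic polynomial over `F2`
(`Module.Finite F2 R2`): `∑ p_i D(z^i) = 0`, `p_i ∈ F2 ⊆ K`, so by `Star` `w z` is a root of the monic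
polynomial with coefficients `φ(kap₁(p_i))`; so `w z ∈ φ(Ω₁)`, `w = φ ∘ w₁`; `Star` for `w₁`:
`φ(mu k kap₁ w₁ t) = mu k (φ kap₁) (φ w₁) t`. (3) `wt(F)` is the set of the elements of `Ω` algebraic over
`w(Z)` (`F` is algebraically closed, algebraic over `Z`), the same for `wt'(F)`; so `wt' = wt ∘ σ` for a
bijective `σ : F → F`, `σ ∈ gZ k Z F`. (4) `IsAlgClosed.lift`. -/
def SpecALF : Prop :=
  (∀ (k : Type u) (Z F Ω₁ Ω : Type v) [Field k] [Field Z] [Algebra k Z] [Field F] [Algebra k F]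
    [Algebra Z F] [IsScalarTower k Z F] [Algebra.IsAlgebraic Z F] [Field Ω₁] [IsAlgClosed Ω₁]
    [Algebra k Ω₁] [Field Ω] [Algebra k Ω] (φ : Ω₁ →ₐ[k] Ω) (x₁ : Z →ₐ[k] Ω₁) (xt : F →ₐ[k] Ω),
    (∀ a, xt (algebraMap Z F a) = φ (x₁ a)) →
      ∃ xt₁ : F →ₐ[k] Ω₁, (∀ a, xt₁ (algebraMap Z F a) = x₁ a) ∧ ∀ a, xt a = φ (xt₁ a)) ∧
  (∀ (k : Type u) (Z Q F2 R2 Ω₁ Ω : Type v) [Field k] [Field Z] [Algebra k Z] [DivisionRing Q]
    [Algebra k Q] [Algebra Z Q] [IsScalarTower k Z Q] [Field F2] [Algebra k F2] [Ring R2]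
    [Algebra k R2] [Algebra F2 R2] [IsScalarTower k F2 R2] [Module.Finite F2 R2]
    (D : Q →ₐ[k] R2) (K : Subalgebra F2 R2) [Field Ω₁] [IsAlgClosed Ω₁]
    [Algebra k Ω₁] [Field Ω] [Algebra k Ω] (φ : Ω₁ →ₐ[k] Ω) (kap₁ : K →ₐ[k] Ω₁)
    (w : Z →ₐ[k] Ω), Star D K (φ.comp kap₁) w →
      ∃ w₁ : Z →ₐ[k] Ω₁, Star D K kap₁ w₁ ∧ ∀ a, w a = φ (w₁ a)) ∧
  (∀ (k : Type u) (Z F Ω : Type v) [Field k] [Field Z] [Algebra k Z] [Field F] [IsAlgClosed F]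
    [Algebra k F] [Algebra Z F] [IsScalarTower k Z F] [Algebra.IsAlgebraic Z F] [Field Ω]
    [Algebra k Ω] (w : Z →ₐ[k] Ω) (wt wt' : F →ₐ[k] Ω), (∀ a, wt (algebraMap Z F a) = w a) →
    (∀ a, wt' (algebraMap Z F a) = w a) → ∃ σ ∈ gZ k Z F, ∀ a, wt' a = wt (σ a)) ∧
  (∀ (k : Type u) (Z F Ω : Type v) [Field k] [Field Z] [Algebra k Z] [Field F]
    [Algebra k F] [Algebra Z F] [IsScalarTower k Z F] [Algebra.IsAlgebraic Z F] [Field Ω]
    [IsAlgClosed Ω] [Algebra k Ω] (w : Z →ₐ[k] Ω), ∃ wt : F →ₐ[k] Ω, ∀ a, wt (algebraMap Z F a) = w a)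

/-- **LWD** (150 lines). Heights of pairs are well defined and additive.

PROOF. ALF (3). (1) `wt' = wt ∘ σ`: `wt (b a) = v a = wt' (b' a) = wt (σ (b' a))` for `a ∈ Z`, so `b = σ b'` on
`Z`, `b'⁻¹ σ⁻¹ b ∈ gZ`, `b = σ b' ρ` with `ρ ∈ gZ ≤ G`: `lam b = lam b'`. (2) `w = ut ∘ a` on `Z`, and `wt` is a
lift of `w`, `v = wt ∘ b`; `ut ∘ a` is a lift of `w`, so `wt = ut ∘ a ∘ σ`, and `c := a σ b` works. -/
def SpecLWD : Prop :=
  ∀ (k : Type u) (Z F Ω : Type v) [Field k] [Field Z] [Algebra k Z] [Field F] [IsAlgClosed F]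
    [Algebra k F] [Algebra Z F] [IsScalarTower k Z F] [Algebra.IsAlgebraic Z F] [Field Ω]
    [Algebra k Ω] (G : Subgroup (F ≃ₐ[k] F)) (lam : (F ≃ₐ[k] F) → ℤ), gZ k Z F ≤ G →
    IsLam Z G lam → ∀ u v w : Z →ₐ[k] Ω,
    (∀ b ∈ G, ∀ b' ∈ G, Via b v w → Via b' v w → lam b = lam b') ∧
    (∀ a ∈ G, ∀ b ∈ G, Via a w u → Via b v w → ∃ c ∈ G, Via c v u ∧ lam c = lam a + lam b)

/-- **INV** (200 lines). `HasLab`, `IsTop`, `IsUp` are invariant under extension of the algebraically closed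
field.

PROOF. (1) `⇒`: compose the lift with `φ`. `⇐`: ALF (1) for the lift `wt` of `φ ∘ w₁`: `wt = φ ∘ wt₁`,
and `φ (v₁ a) = φ (wt₁ (b a))`. (2) `Star`: `φ` is injective. `⇒`: let `w' ∈ *(φ kap₁)`; by ALF (2)
`w' = φ ∘ w'₁`, `Star D K kap₁ w'₁`, and `Via` descends by (1). `⇐`: compose `w'₁` with `φ`. (3) `⇒`: (1), (2).
`⇐`: the top point `w` descends by ALF (2), then (1), (2). -/
def SpecINV : Prop :=
  ∀ (k : Type u) (Z Q F2 R2 F : Type v) [Field k] [Field Z] [Algebra k Z] [DivisionRing Q]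
    [Algebra k Q] [Algebra Z Q] [IsScalarTower k Z Q] [Field F2] [Algebra k F2] [Ring R2]
    [Algebra k R2] [Algebra F2 R2] [IsScalarTower k F2 R2] [Module.Finite F2 R2] [Field F]
    [Algebra k F] [Algebra Z F] [IsScalarTower k Z F] [Algebra.IsAlgebraic Z F]
    (D : Q →ₐ[k] R2) (K : Subalgebra F2 R2) (L : Set (F ≃ₐ[k] F)) (G : Subgroup (F ≃ₐ[k] F))
    (lam : (F ≃ₐ[k] F) → ℤ) (M : ℤ) (Ω₁ Ω : Type v) [Field Ω₁] [IsAlgClosed Ω₁] [Algebra k Ω₁]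
    [Field Ω] [IsAlgClosed Ω] [Algebra k Ω] (φ : Ω₁ →ₐ[k] Ω),
    (∀ v₁ w₁ : Z →ₐ[k] Ω₁,
      (∀ b : F ≃ₐ[k] F, Via b v₁ w₁ ↔ Via b (φ.comp v₁) (φ.comp w₁)) ∧
      (HasLab L lam M v₁ w₁ ↔ HasLab L lam M (φ.comp v₁) (φ.comp w₁))) ∧
    ∀ (kap₁ : K →ₐ[k] Ω₁) (w₁ : Z →ₐ[k] Ω₁),
      (IsTop G lam D K kap₁ w₁ ↔ IsTop G lam D K (φ.comp kap₁) (φ.comp w₁)) ∧
      (IsUp L G lam M D K kap₁ w₁ ↔ IsUp L G lam M D K (φ.comp kap₁) (φ.comp w₁))

/-- **TPX** (200 lines). Every `kap` has a top point.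

PROOF. `*kap` is not empty (STM (3)) and finite (`*kap ⊆ x * y` by STM (1), FIN (1)). Let `w₀ ∈ *kap`. For
`w ∈ *kap` R11 gives `Rel D W w w₀`, and LAB a label `b_w ∈ Lab` with `Via b_w w w₀` (`Lab ⊆ G0`). Let `w` be such
that `lam b_w` is maximal. If `w' ∈ *kap`, `b ∈ G0`, `Via b w' w`, then by LWD (2) there is `c ∈ G0` with
`Via c w' w₀`, `lam c = lam b_w + lam b`, and by LWD (1) `lam c = lam b_{w'} ≤ lam b_w`. -/
def SpecTPX : Prop :=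
  ∀ (k : Type u) (Z Q F2 R2 F : Type v) [Field k] [Field Z] [Algebra k Z] [DivisionRing Q]
    [Algebra k Q] [Algebra Z Q] [IsScalarTower k Z Q] [Field F2] [Algebra k F2] [Ring R2]
    [Algebra k R2] [Algebra F2 R2] [IsScalarTower k F2 R2] [Module.Finite Z Q]
    [Module.Finite F2 R2] [Field F] [IsAlgClosed F]
    [Algebra k F] [Algebra Z F] [IsScalarTower k Z F] [Algebra.IsAlgebraic Z F]
    (D : Q →ₐ[k] R2) (M K : Subalgebra F2 R2), IsMK D M K → ∀ W : Submodule k R2, Bif D W →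
    Submodule.span F2 (WD D W : Set R2) = Subalgebra.toSubmodule M →
    ∀ lam : (F ≃ₐ[k] F) → ℤ, IsLam Z (G0 F Z D W) lam →
    ∀ (Ω : Type v) [Field Ω] [IsAlgClosed Ω] [Algebra k Ω] (kap : K →ₐ[k] Ω),
      ∃ w : Z →ₐ[k] Ω, IsTop (G0 F Z D W) lam D K kap w

/-! ## The idempotents `e`, `p`, `ϖ` -/

/-- **EID** (100 lines). The idempotent `e ∈ K[D Z]` of the top points; `e ≠ 0`.

PROOF. IDR with `F = F2`, `R = R2`, `A = K`, `B = Z`, `p = K.val`, `q = DZ D Z` (`K` is commutative,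
`IsMK.comm`, `IsMK.D_mem`), `S Ω kap w := IsTop G lam D K kap w`, invariance: INV (2). `F2`: `x ⊗ 1`.
`e ≠ 0`: let `Ω = AlgebraicClosure F2` (or of `K`); there is `kap : K → Ω` (STM (4), or `K` is a field) and a
top point (hypothesis); the value of `e` there is `1`. -/
def SpecEID : Prop :=
  ∀ (k : Type u) (Z Q F2 R2 F : Type v) [Field k] [Field Z] [Algebra k Z] [DivisionRing Q]
    [Algebra k Q] [Algebra Z Q] [IsScalarTower k Z Q] [Field F2] [Algebra k F2] [Ring R2]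
    [Algebra k R2] [Algebra F2 R2] [IsScalarTower k F2 R2] [Module.Finite Z Q]
    [Module.Finite F2 R2] [Field F]
    [Algebra k F] [Algebra Z F] [IsScalarTower k Z F] [Algebra.IsAlgebraic Z F]
    (D : Q →ₐ[k] R2) (M K : Subalgebra F2 R2), IsMK D M K →
    ∀ (G : Subgroup (F ≃ₐ[k] F)) (lam : (F ≃ₐ[k] F) → ℤ),
    (∀ (Ω : Type v) [Field Ω] [IsAlgClosed Ω] [Algebra k Ω] (kap : K →ₐ[k] Ω),
      ∃ w : Z →ₐ[k] Ω, IsTop G lam D K kap w) →
    ∃ te : K ⊗[k] Z, mu k (K.val.restrictScalars k) (DZ D Z) te ≠ 0 ∧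
      mu k (K.val.restrictScalars k) (DZ D Z) te * mu k (K.val.restrictScalars k) (DZ D Z) te =
        mu k (K.val.restrictScalars k) (DZ D Z) te ∧
      ∀ (Ω : Type v) [Field Ω] [IsAlgClosed Ω] [Algebra k Ω] (kap : K →ₐ[k] Ω) (w : Z →ₐ[k] Ω),
        Star D K kap w →
        (IsTop G lam D K kap w → mu k kap w te = 1) ∧ (¬ IsTop G lam D K kap w → mu k kap w te = 0)

/-- **PID** (100 lines). The idempotent `p ∈ Z[T(Z)] ⊆ M_n(Q)` of the labels of height `M`.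

PROOF. IDR with `F = Z`, `R = M_n(Q)`, `A = B = Z`, `p = T`, `q` = scalars, `S Ω z x := HasLab L lam M z x`,
invariance: INV (1). `T(Z)` commutes with the scalars `Z` (central in `M_n(Q)`: `Z` is central in `Q`). -/
def SpecPID : Prop :=
  ∀ (k : Type u) (Z Q F : Type v) [Field k] [Field Z] [Algebra k Z] [DivisionRing Q]
    [Algebra k Q] [Algebra Z Q] [IsScalarTower k Z Q] [Module.Finite Z Q] [Field F]
    [Algebra k F] [Algebra Z F] [IsScalarTower k Z F] [Algebra.IsAlgebraic Z F]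
    (L : Set (F ≃ₐ[k] F)) (lam : (F ≃ₐ[k] F) → ℤ) (M : ℤ) (n : ℕ)
    (T : Q →ₐ[k] Matrix (Fin n) (Fin n) Q),
    ∃ tp : Z ⊗[k] Z, mu k (T.comp (zQ k Z Q)) (IsScalarTower.toAlgHom k Z _) tp *
        mu k (T.comp (zQ k Z Q)) (IsScalarTower.toAlgHom k Z _) tp =
        mu k (T.comp (zQ k Z Q)) (IsScalarTower.toAlgHom k Z _) tp ∧
      ∀ (Ω : Type v) [Field Ω] [IsAlgClosed Ω] [Algebra k Ω] (z x : Z →ₐ[k] Ω), RelT T z x →
        (HasLab L lam M z x → mu k z x tp = 1) ∧ (¬ HasLab L lam M z x → mu k z x tp = 0)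

/-- **VID** (100 lines). The idempotent `ϖ ∈ K[D(T(Z))] ⊆ M_n(R2)` of the points `(kap, v)` with `IsUp`.

PROOF. IDR with `F = F2`, `R = M_n(R2)`, `A = K` (scalar matrices), `B = Z`, `q = D(T(·))`. `sc c` commutes with
`D(T(z))`: `c ∈ K` commutes with `D(Q) ⊆ M`. Invariance: INV (3). -/
def SpecVID : Prop :=
  ∀ (k : Type u) (Z Q F2 R2 F : Type v) [Field k] [Field Z] [Algebra k Z] [DivisionRing Q]
    [Algebra k Q] [Algebra Z Q] [IsScalarTower k Z Q] [Field F2] [Algebra k F2] [Ring R2]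
    [Algebra k R2] [Algebra F2 R2] [IsScalarTower k F2 R2] [Module.Finite F2 R2] [Field F]
    [Algebra k F] [Algebra Z F] [IsScalarTower k Z F] [Algebra.IsAlgebraic Z F]
    (D : Q →ₐ[k] R2) (M K : Subalgebra F2 R2), IsMK D M K →
    ∀ (L : Set (F ≃ₐ[k] F)) (G : Subgroup (F ≃ₐ[k] F)) (lam : (F ≃ₐ[k] F) → ℤ) (m : ℤ) (n : ℕ)
      (T : Q →ₐ[k] Matrix (Fin n) (Fin n) Q),
    ∃ tv : K ⊗[k] Z,
      mu k ((sc k n R2).comp (K.val.restrictScalars k)) ((DT D T).comp (zQ k Z Q)) tv *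
        mu k ((sc k n R2).comp (K.val.restrictScalars k)) ((DT D T).comp (zQ k Z Q)) tv =
        mu k ((sc k n R2).comp (K.val.restrictScalars k)) ((DT D T).comp (zQ k Z Q)) tv ∧
      ∀ (Ω : Type v) [Field Ω] [IsAlgClosed Ω] [Algebra k Ω] (kap : K →ₐ[k] Ω) (v : Z →ₐ[k] Ω),
        Kill k ((sc k n R2).comp (K.val.restrictScalars k)) ((DT D T).comp (zQ k Z Q)) kap v →
        (IsUp L G lam m D K kap v → mu k kap v tv = 1) ∧
        (¬ IsUp L G lam m D K kap v → mu k kap v tv = 0)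

/-- **P3A** (200 lines). `ϖ D(p) e = D(p) e` (values only).

PROOF. TRI (1) in `R = M_n(R2)` with `A = K`, `p = sc` on `K`, `B = Z`, `q = sc ∘ D`, `C = Z`,
`r = D(T(·))`; all images commute (`K` commutes with `D(Q)`, `D(Z)` is central in `D(Q)`). `e · 1 = mu p q te`
(scalar matrix of `mu K.val (DZ D Z) te`), `D(p)` (entrywise) `= mu r q tp` (with `tp ∈ Z ⊗ Z`; flip the
factors for TRI), `ϖ = mu p r tv`. A point `(kap, w, v)`: `Kill p q` is `Star D K kap w` (scalar matrices),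
`Kill r q` is `RelT T v w` (`D` is injective: if `∑ T(z'_i) z_i = 0` then `∑ D(T z'_i) D(z_i) = 0`). If
`mu kap w te ≠ 0` then `IsTop kap w`; if `mu v w tp ≠ 0` then `HasLab v w`; so `IsUp kap v`, and
`mu kap v tv = 1`. -/
def SpecP3A : Prop :=
  ∀ (k : Type u) (Z Q F2 R2 F : Type v) [Field k] [Field Z] [Algebra k Z] [DivisionRing Q]
    [Algebra k Q] [Algebra Z Q] [IsScalarTower k Z Q] [Field F2] [Algebra k F2] [Ring R2]
    [Algebra k R2] [Algebra F2 R2] [IsScalarTower k F2 R2] [Module.Finite F2 R2] [Field F]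
    [Algebra k F] [Algebra Z F] [IsScalarTower k Z F]
    (D : Q →ₐ[k] R2) (M K : Subalgebra F2 R2), IsMK D M K →
    ∀ (L : Set (F ≃ₐ[k] F)) (G : Subgroup (F ≃ₐ[k] F)) (lam : (F ≃ₐ[k] F) → ℤ) (m : ℤ) (n : ℕ)
      (T : Q →ₐ[k] Matrix (Fin n) (Fin n) Q) (te : K ⊗[k] Z) (tp : Z ⊗[k] Z) (tv : K ⊗[k] Z)
      (e : R2) (p : Matrix (Fin n) (Fin n) Q) (ϖ : Matrix (Fin n) (Fin n) R2),
    e = mu k (K.val.restrictScalars k) (DZ D Z) te →
    p = mu k (T.comp (zQ k Z Q)) (IsScalarTower.toAlgHom k Z _) tp →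
    ϖ = mu k ((sc k n R2).comp (K.val.restrictScalars k)) ((DT D T).comp (zQ k Z Q)) tv →
    e * e = e → p * p = p → ϖ * ϖ = ϖ →
    (∀ (Ω : Type v) [Field Ω] [IsAlgClosed Ω] [Algebra k Ω] (kap : K →ₐ[k] Ω) (w : Z →ₐ[k] Ω),
      Star D K kap w → ¬ IsTop G lam D K kap w → mu k kap w te = 0) →
    (∀ (Ω : Type v) [Field Ω] [IsAlgClosed Ω] [Algebra k Ω] (z x : Z →ₐ[k] Ω), RelT T z x →
      ¬ HasLab L lam m z x → mu k z x tp = 0) →
    (∀ (Ω : Type v) [Field Ω] [IsAlgClosed Ω] [Algebra k Ω] (kap : K →ₐ[k] Ω) (v : Z →ₐ[k] Ω),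
      Kill k ((sc k n R2).comp (K.val.restrictScalars k)) ((DT D T).comp (zQ k Z Q)) kap v →
      IsUp L G lam m D K kap v → mu k kap v tv = 1) →
    ϖ * (p.map D * Matrix.scalar (Fin n) e) = p.map D * Matrix.scalar (Fin n) e

/-- **P3B** (300 lines). `(p ⊗ 1) ϖ = ϖ`: the place where the two filtrations are compared.

PROOF. TRI (2) in `R = M_n(R2)` with `A = K`, `p = sc` on `K`; `B = K`, `q = τ` on `K`; `C = Z`,
`r = D(T(·)) = τ ∘ D` on `Z`. `sc c` commutes with `τ(c')` because the entries of `τ(c')` are in `M2`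
(`NI.SpecTRM`) and `c ∈ K` commutes with `M2`; `τ(c')` commutes with `τ(D z)`. `p ⊗ 1`, the matrix
`j(p_{il} ⊗ 1) = ∑ j(T(z'_i) ⊗ 1) j(z_i ⊗ 1)`, is `mu q p t'`, `t'` the image of `tp` under
`i₁ ⊗ i₁ : Z ⊗ Z → K ⊗ K`, `i₁ z = algebraMap F2 K (jF (z ⊗ 1))` (`τ(j(z' ⊗ 1)) = j(T(z') ⊗ 1)`), up to the flip.
A point `(kap, kap', v)`. `x := kap ∘ i₁`, `z := kap' ∘ i₁`, `y := kap ∘ i₂`, `i₂ z = algebraMap F2 K (jF (1 ⊗ z))`;
`kap' ∘ i₂ = y` because `τ(j(1 ⊗ b)) = sc (j(1 ⊗ b))` (`Kill p q` for `i₂ b ⊗ 1 - 1 ⊗ i₂ b`); so `Pr jF ξ x y`,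
`Pr jF ξ' z y` with `ξ, ξ'` the restrictions to `F2`. `RelT T z x`: if `∑ T(z'_i) z_i = 0` then
`∑ τ(i₁ z'_i) sc(i₁ z_i) = ∑ j(T(z'_i) z_i ⊗ 1) = 0`, apply `Kill p q`. By hypothesis there is `a ∈ L` with
`Via a z x`. `Star D K kap' v`: `∑ c_i D(z_i) = 0` implies `∑ τ(c_i) τ(D z_i) = 0`, `Kill q r`. If
`mu kap v tv ≠ 0` then `IsUp kap v`: `w` top, `b ∈ L`, `lam b = m`, `Via b v w`. Hypothesis (H21):
`m = lam b ≤ lam a ≤ m`. So `HasLab L lam m z x` and `mu z x tp = 1`. -/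
def SpecP3B : Prop :=
  ∀ (k : Type u) (H Z Q F2 R2 F : Type v) [Field k] [Ring H] [IsDomain H] [HopfAlgebra k H]
    [Field Z] [Algebra k Z] [DivisionRing Q] [Algebra k Q] [Algebra Z Q] [IsScalarTower k Z Q]
    [Field F2] [Algebra k F2] [Ring R2] [Algebra k R2] [Algebra F2 R2] [IsScalarTower k F2 R2]
    [Field F] [Algebra k F] [Algebra Z F] [IsScalarTower k Z F]
    (ι : H →ₐ[k] Q) (jF : Z ⊗[k] Z →ₐ[k] F2) (j : Q ⊗[k] Q →ₐ[k] R2) (D : Q →ₐ[k] R2),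
    IsCQ k H Z Q ι → IsR2 ι jF j D → Function.Bijective (antipode k (A := H)) →
    ∀ K : Subalgebra F2 R2, IsMK D (M2 Z F2 ι j D) K →
    ∀ (n : ℕ) (f : H →ₐ[k] Matrix (Fin n) (Fin n) k) (T : Q →ₐ[k] Matrix (Fin n) (Fin n) Q),
    IsTl ι f T → ∀ τ : R2 →ₐ[k] Matrix (Fin n) (Fin n) R2,
    (∀ a b p l, τ (j (a ⊗ₜ b)) p l = j (T a p l ⊗ₜ b)) → (∀ q p l, τ (D q) p l = D (T q p l)) →
    ∀ (W : Submodule k R2) (lam : (F ≃ₐ[k] F) → ℤ) (m : ℤ) (tp : Z ⊗[k] Z) (tv : K ⊗[k] Z)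
      (p : Matrix (Fin n) (Fin n) Q) (ϖ : Matrix (Fin n) (Fin n) R2),
    H21 F jF D K W lam → (∀ a ∈ Lab F Z D W, lam a ≤ m) →
    (∀ (Ω : Type v) [Field Ω] [IsAlgClosed Ω] [Algebra k Ω] (z x : Z →ₐ[k] Ω), RelT T z x →
      ∃ a ∈ Lab F Z D W, Via a z x) →
    p = mu k (T.comp (zQ k Z Q)) (IsScalarTower.toAlgHom k Z _) tp →
    ϖ = mu k ((sc k n R2).comp (K.val.restrictScalars k)) ((DT D T).comp (zQ k Z Q)) tv →
    p * p = p → ϖ * ϖ = ϖ →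
    (∀ (Ω : Type v) [Field Ω] [IsAlgClosed Ω] [Algebra k Ω] (z x : Z →ₐ[k] Ω), RelT T z x →
      HasLab (Lab F Z D W) lam m z x → mu k z x tp = 1) →
    (∀ (Ω : Type v) [Field Ω] [IsAlgClosed Ω] [Algebra k Ω] (kap : K →ₐ[k] Ω) (v : Z →ₐ[k] Ω),
      Kill k ((sc k n R2).comp (K.val.restrictScalars k)) ((DT D T).comp (zQ k Z Q)) kap v →
      ¬ IsUp (Lab F Z D W) (G0 F Z D W) lam m D K kap v → mu k kap v tv = 0) →
    p.map (fun q => j (q ⊗ₜ[k] (1 : Q))) * ϖ = ϖ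

/-- **P31** (250 lines). (3.1).

PROOF. `e_i` a `k`-basis of `E`, `f` the matrix of `▷` on `E` (`EG.SpecADA`), `T` (TEL), `τ` (TAL),
`W = embL j E`, `M2`, `K2` etc. as in `LB/R1L.lean`. RTL (2) and LAB: for `Ω` algebraically closed
`RelT T z x ↔ Rel D W z x ↔ ∃ a ∈ Lab, Via a z x` (ALF (4) for the lift; `Via` is independent of the lift by
ALF (3) and LCL (1), or use LAB with the lift of ALF (4)). TPX (M2D for the span, BIF for `Bif`), EID, PID, VID,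
P3A, P3B: `(p ⊗ 1) D(p) e = (p ⊗ 1) ϖ D(p) e = ϖ D(p) e = D(p) e`. `e` commutes with `D(Q)`: `e ∈ K[D Z]`. The last
two statements: PID and RTL, LAB in `Ω = F`: `1 ∈ Lab` (LCL (3)), and `Via a (rs Z a) (rs Z 1)`. -/
def SpecP31 : Prop :=
  ∀ (k : Type u) (H Z Q F2 R2 F : Type v) [Field k] [Ring H] [IsDomain H] [HopfAlgebra k H]
    [Field Z] [Algebra k Z] [DivisionRing Q] [Algebra k Q] [Algebra Z Q] [IsScalarTower k Z Q]
    [Field F2] [Algebra k F2] [Ring R2] [Algebra k R2] [Algebra F2 R2] [IsScalarTower k F2 R2]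
    [Field F] [IsAlgClosed F] [Algebra k F] [Algebra Z F] [IsScalarTower k Z F]
    [Algebra.IsAlgebraic Z F]
    (ι : H →ₐ[k] Q) (jF : Z ⊗[k] Z →ₐ[k] F2) (j : Q ⊗[k] Q →ₐ[k] R2) (D : Q →ₐ[k] R2),
    IsCQ k H Z Q ι → IsR2 ι jF j D → Function.Bijective (antipode k (A := H)) →
    ∀ K : Subalgebra F2 R2, IsMK D (M2 Z F2 ι j D) K → ∀ E : Submodule k Q, IsEl Z ι E →
    ∀ lam : (F ≃ₐ[k] F) → ℤ, IsLam Z (G0 F Z D (embL j E)) lam →
    H21 F jF D K (embL j E) lam → ∀ m : ℤ, (∀ a ∈ Lab F Z D (embL j E), lam a ≤ m) →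
    ∃ (n : ℕ) (ev : Fin n → Q) (T : Q →ₐ[k] Matrix (Fin n) (Fin n) Q) (tp : Z ⊗[k] Z)
      (p : Matrix (Fin n) (Fin n) Q) (e : R2),
      LinearIndependent k ev ∧ (∀ q l, ∑ i, ev i * T q i l = q * ev l) ∧ e ≠ 0 ∧
      (∀ q, e * D q = D q * e) ∧
      p = mu k (T.comp (zQ k Z Q)) (IsScalarTower.toAlgHom k Z _) tp ∧ p * p = p ∧
      (p.map (fun q => j (q ⊗ₜ[k] (1 : Q))) * (p.map D * Matrix.scalar (Fin n) e) =
        p.map D * Matrix.scalar (Fin n) e) ∧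
      (m ≠ 0 → mu k (rs Z (1 : F ≃ₐ[k] F)) (rs Z (1 : F ≃ₐ[k] F)) tp = 0) ∧
      ((∃ a ∈ Lab F Z D (embL j E), lam a = m) → p ≠ 0)

/-- **PUF** (200 lines). The end: `lam = 0` on the labels.

PROOF. Let `m` be the maximum of `lam` on `Lab` (finite modulo `gZ`, LCL (2), `lam` is invariant under right
multiplication by `gZ`; `1 ∈ Lab`, `lam 1 = 0`, so `m ≥ 0`). Suppose `m ≠ 0`; P31. `T' := {u : Fin n → Q | p u = u}`,
a right `Q`-subspace, `≠ 0` since `p ≠ 0` (columns of `p`). Purity (`pur_R2` of `PUR.lean` with the element `e`): for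
`u ∈ T'` and `φ ∈ T'^⊥` (so `φ p = 0`, the columns of `p` are in `T'`):
`∑ j(φ_i ⊗ 1) e D(u_i) = ∑_{i,l} j(φ_i ⊗ 1) D(p_il) e D(u_l)` (`u = p u`, `e` commutes with `D`), and by (3.1)
`D(p_il) e = ∑_s j(p_is ⊗ 1) D(p_sl) e`, so the sum is `∑ j((φ p)_s ⊗ 1) .. = 0`. So `T'` is spanned by vectors
with entries in `k`: there is `0 ≠ u ∈ T'`, `u_i = c_i ∈ k`. `μ(v) := ∑ ev_i v_i`, `μ(T(q) v) = q μ(v)`. With
`tp = ∑ z'_i ⊗ z_i`: `μ(u) = μ(p u) = (∑ z'_i z_i) μ(u)`, and `μ(u) = ∑ c_i ev_i ≠ 0`, so `∑ z'_i z_i = 1`, but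
`mu (rs 1) (rs 1) tp = ∑ z'_i z_i` in `F` is `0`. Contradiction, so `m = 0` and `lam ≤ 0` on `Lab`. `Lab` is stable
under inverses up to nothing: `(rs a, rs 1)` related implies `(rs 1, rs a)` related (SYM, in `Ω = F`), and
`(rs 1, rs a) = a ∘ (rs a⁻¹, rs 1)`, so `a⁻¹ ∈ Lab` and `lam a ≥ 0`. -/
def SpecPUF : Prop :=
  ∀ (k : Type u) (H Z Q F2 R2 F : Type v) [Field k] [IsAlgClosed k] [Ring H] [IsDomain H]
    [HopfAlgebra k H]
    [Field Z] [Algebra k Z] [DivisionRing Q] [Algebra k Q] [Algebra Z Q] [IsScalarTower k Z Q]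
    [Field F2] [Algebra k F2] [Ring R2] [Algebra k R2] [Algebra F2 R2] [IsScalarTower k F2 R2]
    [Field F] [IsAlgClosed F] [Algebra k F] [Algebra Z F] [IsScalarTower k Z F]
    [Algebra.IsAlgebraic Z F]
    (ι : H →ₐ[k] Q) (jF : Z ⊗[k] Z →ₐ[k] F2) (j : Q ⊗[k] Q →ₐ[k] R2) (D : Q →ₐ[k] R2),
    IsCQ k H Z Q ι → IsR2 ι jF j D → Function.Bijective (antipode k (A := H)) →
    ∀ K : Subalgebra F2 R2, IsMK D (M2 Z F2 ι j D) K → ∀ E : Submodule k Q, IsEl Z ι E →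
    ∀ lam : (F ≃ₐ[k] F) → ℤ, IsLam Z (G0 F Z D (embL j E)) lam →
    H21 F jF D K (embL j E) lam → ∀ a ∈ Lab F Z D (embL j E), lam a = 0

end Pool.Agent.Lib.MP_c37a72_al.PU
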